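import Pool.Agent.TH100.Pisot.Absorb

/-!
Local density of good substitutions: every substitution with incidence matrix `M ^ n` and bounded
discrepancy can be changed at a bounded number of places, outside a prescribed set of places, into
a substitution with a coincidence property of any prescribed strength.
-/

set_option autoImplicit false

namespace Pool.Agent.Y480.PI
open Pool.Agent.H812R2.PI Pool.Agent.TH100.Pisot
open scoped BigOperators

variable {d : ℕ}

/-- the places at which two substitutions differ in the image of the letter `c` -/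
def diffs (σ σ' : Fin d → List (Fin d)) (c : Fin d) : Set ℕ := {k | (σ c)[k]? ≠ (σ' c)[k]?}

theorem diffs_trans (σ σ' σ'' : Fin d → List (Fin d)) (c : Fin d) :
    diffs σ σ'' c ⊆ diffs σ σ' c ∪ diffs σ' σ'' c := by
  intro k hk
  simp only [diffs, Set.mem_union, Set.mem_ofPred_eq] at *
  by_contra h
  push Not at h
  exact hk (h.1.trans h.2)

/-- a letter is determined by the prefix sums -/
theorem letter_eq {w w' : List (Fin d)} (hlen : w.length = w'.length) {k : ℕ}
    (h1 : ab (w.take k) = ab (w'.take k)) (h2 : ab (w.take (k + 1)) = ab (w'.take (k + 1))) :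
    w[k]? = w'[k]? := by
  by_cases hk : k < w.length
  · have hk' : k < w'.length := by omega
    rw [GBad_take_succ w k hk, GBad_take_succ w' k hk', h1] at h2
    have h3 := GBad_ev_inj (add_left_cancel h2)
    rw [List.getElem?_eq_getElem hk, List.getElem?_eq_getElem hk', h3]
  · rw [List.getElem?_eq_none (by omega), List.getElem?_eq_none (by omega)]

/-- coincidence at the places `k`, `k'` -/
def Coin (a b : Fin d) (s : Fin d → ℤ) (σ : Fin d → List (Fin d)) (k k' : ℕ) : Prop :=
  k < (σ a).length ∧ k' < (σ b).length ∧ ab ((σ a).take k) = s + ab ((σ b).take k') ∧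
    ab ((σ a).take (k + 1)) = s + ab ((σ b).take (k' + 1))

theorem Coin.edge {a b : Fin d} {s : Fin d → ℤ} {σ : Fin d → List (Fin d)} {k k' : ℕ}
    (h : Coin a b s σ k k') : ∃ e, e ∈ edges 0 (σ a) ∧ e ∈ edges s (σ b) := by
  obtain ⟨h1, h2, h3, h4⟩ := h
  refine ⟨(0 + ab ((σ a).take k), (σ a)[k]), mem_edges.2 ⟨k, h1, rfl⟩, mem_edges.2 ⟨k', h2, ?_⟩⟩
  rw [GBad_take_succ _ k h1, GBad_take_succ _ k' h2, h3, ← add_assoc] at h4
  have h5 := GBad_ev_inj (add_left_cancel h4)
  rw [zero_add, h3, h5]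

/-- the places used by a coincidence -/
def places (a b : Fin d) (k k' : ℕ) : Finset (Fin d × ℕ) :=
  {(a, k), (a, k + 1), (b, k'), (b, k' + 1)}

theorem places_card (a b : Fin d) (k k' : ℕ) : (places a b k k').card ≤ 4 :=
  Finset.card_le_four

theorem Coin.transfer {a b : Fin d} {s : Fin d → ℤ} {σ σ' : Fin d → List (Fin d)} {k k' : ℕ}
    (h : Coin a b s σ k k') (hlen : ∀ c, (σ' c).length = (σ c).length)
    (hp : ∀ p ∈ places a b k k', ab ((σ' p.1).take p.2) = ab ((σ p.1).take p.2)) :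
    Coin a b s σ' k k' := by
  obtain ⟨h1, h2, h3, h4⟩ := h
  have e1 := hp (a, k) (by simp [places])
  have e2 := hp (a, k + 1) (by simp [places])
  have e3 := hp (b, k') (by simp [places])
  have e4 := hp (b, k' + 1) (by simp [places])
  simp only at e1 e2 e3 e4
  exact ⟨by rw [hlen]; exact h1, by rw [hlen]; exact h2, by rw [e1, e3]; exact h3,
    by rw [e2, e4]; exact h4⟩

/-- among `J > 2 |Z|` pairs of blocks there is one whose interiors avoid `Z` -/
theorem exists_block (a b : Fin d) (K J t t' : ℕ) (Z : Finset (Fin d × ℕ)) (hJ : 2 * Z.card < J) :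
    ∃ j < J, ∀ p ∈ Z, GBad_NI a b K (t + j * K) (t' + j * K) p.1 p.2 := by
  classical
  by_contra hcon
  push Not at hcon
  -- every block is hit
  have hex : ∀ j : Fin J, ∃ p ∈ Z, ¬ GBad_NI a b K (t + j * K) (t' + j * K) p.1 p.2 :=
    fun j => hcon j j.2
  choose f hfZ hf using hex
  -- two sides
  have hside : ∀ j : Fin J, (f j).1 = a ∧ t + j * K < (f j).2 ∧ (f j).2 < t + j * K + K ∨
      (f j).1 = b ∧ t' + j * K < (f j).2 ∧ (f j).2 < t' + j * K + K := by
    intro j
    have := hf j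
    unfold GBad_NI at this
    by_contra h
    push Not at h
    apply this
    refine ⟨fun h1 => ?_, fun h1 => ?_⟩
    · by_contra h2
      push Not at h2
      have := h.1 h1 h2.1
      omega
    · by_contra h2
      push Not at h2
      have := h.2 h1 h2.1
      omega
  let g : Fin J → (Fin d × ℕ) × Bool := fun j =>
    (f j, decide ((f j).1 = a ∧ t + j * K < (f j).2 ∧ (f j).2 < t + j * K + K))
  have hginj : Function.Injective g := by
    have key : ∀ (i j : Fin J) (T x : ℕ), T + (i : ℕ) * K < x → x < T + (i : ℕ) * K + K →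
        T + (j : ℕ) * K < x → x < T + (j : ℕ) * K + K → i = j := by
      intro i j T x h1 h2 h3 h4
      rcases lt_trichotomy (i : ℕ) (j : ℕ) with h | h | h
      · exfalso
        have : ((i : ℕ) + 1) * K ≤ (j : ℕ) * K := Nat.mul_le_mul_right K h
        have e : ((i : ℕ) + 1) * K = (i : ℕ) * K + K := by ring
        omega
      · exact Fin.ext h
      · exfalso
        have : ((j : ℕ) + 1) * K ≤ (i : ℕ) * K := Nat.mul_le_mul_right K h
        have e : ((j : ℕ) + 1) * K = (j : ℕ) * K + K := by ring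
        omega
    intro i j hij
    simp only [g, Prod.mk.injEq] at hij
    obtain ⟨h1, h2⟩ := hij
    have h3 : ((f i).1 = a ∧ t + i * K < (f i).2 ∧ (f i).2 < t + i * K + K) ↔
        ((f j).1 = a ∧ t + j * K < (f j).2 ∧ (f j).2 < t + j * K + K) :=
      decide_eq_decide.1 h2
    by_cases h4 : (f i).1 = a ∧ t + i * K < (f i).2 ∧ (f i).2 < t + i * K + K
    · have h5 := h3.1 h4
      rw [← h1] at h5
      exact key i j t _ h4.2.1 h4.2.2 h5.2.1 h5.2.2
    · have h5 : ¬ ((f j).1 = a ∧ t + j * K < (f j).2 ∧ (f j).2 < t + j * K + K) :=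
        fun h => h4 (h3.2 h)
      have h6 := (hside i).resolve_left h4
      have h7 := (hside j).resolve_left h5
      rw [← h1] at h7
      exact key i j t' _ h6.2.1 h6.2.2 h7.2.1 h7.2.2
  have hcard : J ≤ (Z ×ˢ (Finset.univ : Finset Bool)).card := by
    have h1 : (Finset.univ.image g) ⊆ Z ×ˢ (Finset.univ : Finset Bool) := by
      intro x hx
      obtain ⟨j, -, rfl⟩ := Finset.mem_image.1 hx
      exact Finset.mem_product.2 ⟨hfZ j, Finset.mem_univ _⟩
    have h2 := Finset.card_le_card h1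
    rwa [Finset.card_image_of_injective _ hginj, Finset.card_univ, Fintype.card_fin] at h2
  rw [Finset.card_product, Finset.card_univ, Fintype.card_bool] at hcard
  omega

/-- one coincidence, outside a prescribed set -/
theorem one_step {M : Matrix (Fin d) (Fin d) ℤ} (P : PD M) (B : ℝ) (K : ℕ) (hK : 0 < K)
    (hsurg : SurgProp P.u B K) (a b : Fin d) (v : Fin d → ℤ)
    (hov : 0 < P.OV (0, a) (v, b)) (hne : ¬ (v = 0 ∧ a = b)) :
    ∃ c : ℝ, 0 < c ∧ ∃ n₀ : ℕ, ∀ n ≥ n₀, ∀ σ ∈ SubSet P.u (M ^ n) B,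
      ∀ Z : Finset (Fin d × ℕ), (Z.card : ℝ) ≤ c * P.lam ^ n →
      ∃ σ' ∈ SubSet P.u (M ^ n) B, (∀ p ∈ Z, ab ((σ' p.1).take p.2) = ab ((σ p.1).take p.2)) ∧
        (∀ c, (diffs σ' σ c).encard ≤ (2 * K : ℕ)) ∧
        ∃ k k', Coin a b ((M ^ n).mulVec v) σ' k k' := by
  obtain ⟨c, hc, n0, hgeo⟩ := geom P a b v hov hne
  have hKr : (0:ℝ) < K := by exact_mod_cast hK
  have hlam : Filter.Tendsto (fun n : ℕ => P.lam ^ n) Filter.atTop Filter.atTop :=
    tendsto_pow_atTop_atTop_of_one_lt P.lam_gt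
  obtain ⟨n1, hn1⟩ := Filter.eventually_atTop.1 (hlam.eventually_ge_atTop (4 * K / c))
  refine ⟨c / (4 * K), by positivity, max n0 n1, fun n hn σ hσ Z hZ => ?_⟩
  obtain ⟨hdis, hJ⟩ := hgeo n (le_trans (le_max_left _ _) hn)
  have hbig := hn1 n (le_trans (le_max_right _ _) hn)
  set x : ℝ := P.lam ^ n with hx
  have hxpos : 0 < x := pow_pos (lt_trans one_pos P.lam_gt) n
  set J : ℕ := ⌊c * x / K⌋₊ with hJdef
  have hJ1 : (J : ℝ) ≤ c * x / K := Nat.floor_le (by positivity)
  have hJ2 : c * x / K < J + 1 := Nat.lt_floor_add_one _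
  have hKJ : ((K * J : ℕ) : ℝ) ≤ c * x := by
    push_cast
    rw [le_div_iff₀ hKr] at hJ1
    linarith
  have hJZ : 2 * Z.card < J := by
    have h1 : (4 : ℝ) ≤ c * x / K := by
      rw [div_le_iff₀ hc] at hbig
      rw [le_div_iff₀ hKr]
      linarith
    have h2 : (Z.card : ℝ) ≤ c * x / K / 4 := by
      calc (Z.card : ℝ) ≤ c / (4 * K) * x := hZ
        _ = c * x / K / 4 := by field_simp
    have h3 : ((2 * Z.card : ℕ) : ℝ) < (J : ℝ) := by
      push_cast
      linarith
    exact_mod_cast h3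
  obtain ⟨T, t1, t2, t3, t4, t5⟩ := hJ (K * J) hKJ
  obtain ⟨t, ht⟩ : ∃ t : ℕ, T = t := ⟨T.toNat, by omega⟩
  obtain ⟨t', ht'⟩ : ∃ t' : ℕ, T - ∑ i, (M ^ n).mulVec v i = t' :=
    ⟨(T - ∑ i, (M ^ n).mulVec v i).toNat, by omega⟩
  obtain ⟨j, hj, hjZ⟩ := exists_block a b K J t t' Z hJZ
  have hblock : (j : ℕ) * K + K ≤ K * J := by
    calc (j : ℕ) * K + K = ((j : ℕ) + 1) * K := by ring
      _ ≤ J * K := Nat.mul_le_mul_right K hj
      _ = K * J := by ring
  have hlenA : t + K * J ≤ (σ a).length := by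
    have := GBad_length hσ.1 a
    zify; rw [this, ← ht]; push_cast at t2; exact t2
  have hlenB : t' + K * J ≤ (σ b).length := by
    have := GBad_length hσ.1 b
    zify; rw [this, ← ht']; push_cast at t4; exact t4
  have hsep : a = b → (t + K * J ≤ t' ∨ t' + K * J ≤ t) := by
    intro hab
    have h6 := t5 hab
    have h7 : ∑ i, (M ^ n).mulVec v i = (t : ℤ) - t' := by omega
    rw [h7] at h6
    rcases le_abs.1 h6 with h8 | h8
    · right; zify; push_cast at h8; linarith
    · left; zify; push_cast at h8; linarith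
  obtain ⟨σ', m1, m2, m3⟩ := GBad_good (P := t + j * K) (P' := t' + j * K) hsurg hdis
    (by push_cast; omega)
    (by
      intro hab
      rcases hsep hab with h | h
      · left; omega
      · right; omega)
    hσ (by omega) (by omega)
  refine ⟨σ', m1, fun p hp => (m2 p.1 p.2 (hjZ p hp)).symm, fun c => ?_, ?_⟩
  · -- number of changed letters
    have hsub : diffs σ' σ c ⊆ ((Finset.Ico (t + j * K) (t + j * K + K) ∪
        Finset.Ico (t' + j * K) (t' + j * K + K) : Finset ℕ) : Set ℕ) := by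
      intro k hk
      by_contra hcon
      simp only [Finset.coe_union, Finset.coe_Ico, Set.mem_union, Set.mem_Ico, not_or, not_and,
        not_lt] at hcon
      apply hk
      have hNI : ∀ m, (m = k ∨ m = k + 1) →
          GBad_NI a b K (t + j * K) (t' + j * K) c m := by
        rintro m (rfl | rfl)
        · refine ⟨fun _ => ?_, fun _ => ?_⟩
          · rcases lt_or_ge m (t + j * K) with h | h
            · left; omega
            · right; exact hcon.1 h
          · rcases lt_or_ge m (t' + j * K) with h | h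
            · left; omega
            · right; exact hcon.2 h
        · refine ⟨fun _ => ?_, fun _ => ?_⟩
          · rcases lt_or_ge k (t + j * K) with h | h
            · left; omega
            · right; have := hcon.1 h; omega
          · rcases lt_or_ge k (t' + j * K) with h | h
            · left; omega
            · right; have := hcon.2 h; omega
      refine letter_eq (GBad_upd_length m1 hσ c) (m2 c k (hNI k (Or.inl rfl))).symm
        (m2 c (k + 1) (hNI _ (Or.inr rfl))).symm
    refine (Set.encard_le_encard hsub).trans ?_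
    rw [Set.encard_coe_eq_coe_finsetCard]
    have h1 := Finset.card_union_le (Finset.Ico (t + j * K) (t + j * K + K))
      (Finset.Ico (t' + j * K) (t' + j * K + K))
    rw [Nat.card_Ico, Nat.card_Ico] at h1
    exact_mod_cast (show _ ≤ 2 * K by omega)
  · unfold GBad_bad at m3
    push Not at m3
    obtain ⟨k, hk, h1, h2⟩ := m3
    have l1 := GBad_upd_length m1 hσ a
    have l2 := GBad_upd_length m1 hσ b
    exact ⟨t + j * K + k, t' + j * K + k, by omega, by omega, h1, h2⟩

/-- all coincidences of a finite set of pairs -/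
theorem all_steps {M : Matrix (Fin d) (Fin d) ℤ} (P : PD M) (B : ℝ) (K : ℕ) (hK : 0 < K)
    (hsurg : SurgProp P.u B K) (F : Finset (Fin d × Fin d × (Fin d → ℤ))) :
    (∀ t ∈ F, 0 < P.OV (0, t.1) (t.2.2, t.2.1) ∧ ¬ (t.2.2 = 0 ∧ t.1 = t.2.1)) →
    ∃ c : ℝ, 0 < c ∧ ∃ n₀ : ℕ, ∀ n ≥ n₀, ∀ σ ∈ SubSet P.u (M ^ n) B,
      ∀ Z : Finset (Fin d × ℕ), (Z.card : ℝ) ≤ c * P.lam ^ n →
      ∃ σ' ∈ SubSet P.u (M ^ n) B, (∀ p ∈ Z, ab ((σ' p.1).take p.2) = ab ((σ p.1).take p.2)) ∧
        (∀ c, (diffs σ' σ c).encard ≤ (2 * K * F.card : ℕ)) ∧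
        ∀ t ∈ F, ∃ k k', Coin t.1 t.2.1 ((M ^ n).mulVec t.2.2) σ' k k' := by
  classical
  induction F using Finset.induction_on with
  | empty =>
    intro _
    refine ⟨1, one_pos, 0, fun n _ σ hσ Z _ => ⟨σ, hσ, fun _ _ => rfl, fun c => ?_, by simp⟩⟩
    have : diffs σ σ c = ∅ := by
      ext k; simp [diffs]
    rw [this]; simp
  | insert t F ht ih =>
    intro hF
    obtain ⟨c2, hc2, n2, h2⟩ := ih (fun t' h => hF t' (Finset.mem_insert_of_mem h))
    obtain ⟨ht1, ht2⟩ := hF t (Finset.mem_insert_self _ _)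
    obtain ⟨c1, hc1, n1, h1⟩ := one_step P B K hK hsurg t.1 t.2.1 t.2.2 ht1 ht2
    have hlam : Filter.Tendsto (fun n : ℕ => P.lam ^ n) Filter.atTop Filter.atTop :=
      tendsto_pow_atTop_atTop_of_one_lt P.lam_gt
    obtain ⟨n3, hn3⟩ := Filter.eventually_atTop.1 (hlam.eventually_ge_atTop (8 / c2))
    refine ⟨min c1 (c2 / 2), lt_min hc1 (by positivity), max n1 (max n2 n3),
      fun n hn σ hσ Z hZ => ?_⟩
    have g1 : n1 ≤ n := le_trans (le_max_left _ _) hn
    have g2 : n2 ≤ n := le_trans (le_trans (le_max_left _ _) (le_max_right _ _)) hn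
    have g3 : n3 ≤ n := le_trans (le_trans (le_max_right _ _) (le_max_right _ _)) hn
    have hxpos : 0 < P.lam ^ n := pow_pos (lt_trans one_pos P.lam_gt) n
    have hZ1 : (Z.card : ℝ) ≤ c1 * P.lam ^ n :=
      hZ.trans (mul_le_mul_of_nonneg_right (min_le_left _ _) hxpos.le)
    have hZ2 : (Z.card : ℝ) ≤ c2 / 2 * P.lam ^ n :=
      hZ.trans (mul_le_mul_of_nonneg_right (min_le_right _ _) hxpos.le)
    obtain ⟨σ₁, hσ₁, hpre₁, hdiff₁, k, k', hcoin₁⟩ := h1 n g1 σ hσ Z hZ1
    have h8 : 4 ≤ c2 / 2 * P.lam ^ n := by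
      have := hn3 n g3
      rw [div_le_iff₀ hc2] at this
      linarith
    have hZ' : ((Z ∪ places t.1 t.2.1 k k').card : ℝ) ≤ c2 * P.lam ^ n := by
      have h3 : ((Z ∪ places t.1 t.2.1 k k').card : ℝ) ≤ (Z.card : ℝ) + 4 := by
        have := (Finset.card_union_le Z (places t.1 t.2.1 k k')).trans
          (Nat.add_le_add_left (places_card _ _ _ _) _)
        exact_mod_cast this
      linarith
    obtain ⟨σ₂, hσ₂, hpre₂, hdiff₂, hcoin₂⟩ := h2 n g2 σ₁ hσ₁ _ hZ'
    refine ⟨σ₂, hσ₂, fun p hp => ?_, fun c => ?_, fun t' ht' => ?_⟩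
    · exact (hpre₂ p (Finset.mem_union_left _ hp)).trans (hpre₁ p hp)
    · refine (Set.encard_le_encard (diffs_trans σ₂ σ₁ σ c)).trans ?_
      refine (Set.encard_union_le _ _).trans ?_
      refine (add_le_add (hdiff₂ c) (hdiff₁ c)).trans ?_
      rw [Finset.card_insert_of_notMem ht]
      have : (2 * K * F.card : ℕ) + (2 * K : ℕ) = (2 * K * (F.card + 1) : ℕ) := by ring
      exact_mod_cast this.le
    · rcases Finset.mem_insert.1 ht' with rfl | h
      · exact ⟨k, k', hcoin₁.transfer (fun c => GBad_upd_length hσ₂ hσ₁ c)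
          (fun p hp => hpre₂ p (Finset.mem_union_right _ hp))⟩
      · exact hcoin₂ t' h

end Pool.Agent.Y480.PI
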