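import Pool.Agent.Y480.PI.Local

/-!
Substitutions which absorb: bounded changes of an arbitrary substitution of bounded discrepancy.
-/

set_option autoImplicit false

namespace Pool.Agent.Y480.PI
open Pool.Agent.H812R2.PI Pool.Agent.TH100.Pisot
open scoped BigOperators

variable {d : ℕ}

/-- equal letters from equal prefix sums on the doubled set -/
def dbl [DecidableEq (Fin d × ℕ)] (Z : Finset (Fin d × ℕ)) : Finset (Fin d × ℕ) :=
  Z ∪ Z.image fun p => (p.1, p.2 + 1)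

/-- bounded changes give all coincidences of strength `D` -/
theorem local_hit {M : Matrix (Fin d) (Fin d) ℤ} (P : PD M) :
    ∃ B₀ : ℝ, ∀ B ≥ B₀, ∀ D : ℝ, ∃ L : ℕ, ∃ c : ℝ, 0 < c ∧ ∃ n₀ : ℕ, ∀ n ≥ n₀, 1 ≤ n →
      ∀ σ ∈ SubSet P.u (M ^ n) B, ∀ Z : Finset (Fin d × ℕ), (Z.card : ℝ) ≤ c * P.lam ^ n →
      ∃ S ∈ SubSet P.u (M ^ n) B, (∀ p ∈ Z, (S p.1)[p.2]? = (σ p.1)[p.2]?) ∧
        (∀ a, (diffs S σ a).encard ≤ L) ∧ P.Hit S D := by
  classical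
  obtain ⟨B0, hB0⟩ := surgery P.u P.u_pos P.u_sum
  refine ⟨B0, fun B hB D => ?_⟩
  obtain ⟨K, hK, hsurg⟩ := hB0 B hB
  have hWfin := pairs_finite P D
  obtain ⟨F, hF⟩ : ∃ F : Finset (Fin d × Fin d × (Fin d → ℤ)),
      F = hWfin.toFinset.filter (fun t => ¬ (t.2.2 = 0 ∧ t.1 = t.2.1)) := ⟨_, rfl⟩
  have hFmem : ∀ t, t ∈ F ↔ (P.N (rv t.2.2) ≤ D ∧ 0 < P.OV (0, t.1) (t.2.2, t.2.1)) ∧
      ¬ (t.2.2 = 0 ∧ t.1 = t.2.1) := by
    intro t
    rw [hF, Finset.mem_filter, Set.Finite.mem_toFinset]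
    rfl
  obtain ⟨c, hc, n0, h⟩ := all_steps P B K hK hsurg F (fun t ht => by
    have := (hFmem t).1 ht
    exact ⟨this.1.2, this.2⟩)
  refine ⟨2 * K * F.card, c / 2, by positivity, n0, fun n hn h1n σ hσ Z hZ => ?_⟩
  have hxpos : 0 < P.lam ^ n := pow_pos (lt_trans one_pos P.lam_gt) n
  have hZ' : ((dbl Z).card : ℝ) ≤ c * P.lam ^ n := by
    have h1 : (dbl Z).card ≤ Z.card + Z.card :=
      (Finset.card_union_le _ _).trans (Nat.add_le_add_left Finset.card_image_le _)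
    have h2 : ((dbl Z).card : ℝ) ≤ (Z.card : ℝ) + Z.card := by exact_mod_cast h1
    linarith
  obtain ⟨S, hS, hpre, hdiff, hcoin⟩ := h n hn σ hσ (dbl Z) hZ'
  refine ⟨S, hS, fun p hp => ?_, hdiff, ?_⟩
  · refine letter_eq (GBad_upd_length hS hσ p.1) (hpre p (Finset.mem_union_left _ hp)) ?_
    exact hpre (p.1, p.2 + 1) (Finset.mem_union_right _ (Finset.mem_image.2 ⟨p, hp, rfl⟩))
  · intro a b v hv hov
    rw [hS.1]
    by_cases hab : v = 0 ∧ a = b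
    · obtain ⟨rfl, rfl⟩ := hab
      have hne : S a ≠ [] := JList_ne_nil (P.pow n h1n) S hS.1 a
      obtain ⟨x, l, hxl⟩ := List.exists_cons_of_ne_nil hne
      rw [Matrix.mulVec_zero]
      exact ⟨(0, x), by rw [hxl]; simp [edges], by rw [hxl]; simp [edges]⟩
    · obtain ⟨k, k', hk⟩ := hcoin (a, b, v) ((hFmem (a, b, v)).2 ⟨⟨hv, hov⟩, hab⟩)
      exact hk.edge

/-- compositions of substitutions with incidence matrix `M` have uniformly bounded discrepancy -/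
theorem comp_mem {M : Matrix (Fin d) (Fin d) ℤ} (hnn : ∀ i j, 0 ≤ M i j) (P : PD M) :
    ∃ B₁ : ℝ, ∀ B ≥ B₁, ∀ l : List (Fin d → List (Fin d)), (∀ τ ∈ l, inc τ = M) →
      compList l ∈ SubSet P.u (M ^ l.length) B := by
  have hr : 0 < 1 - P.rho := by linarith [P.rho_lt]
  have hs0 : 0 ≤ ∑ i, ∑ j, (M i j : ℝ) := Finset.sum_nonneg fun i _ => Finset.sum_nonneg fun j _ => by
    exact_mod_cast hnn i j
  obtain ⟨BT, hBT⟩ : ∃ BT : ℝ, BT = P.c * ∑ i, ∑ j, (M i j : ℝ) := ⟨_, rfl⟩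
  have hBT0 : 0 ≤ BT := by rw [hBT]; exact mul_nonneg P.c_pos.le hs0
  obtain ⟨BC, hBC⟩ : ∃ BC : ℝ, BC = BT / (1 - P.rho) + ∑ a, P.N (rv (ev a)) := ⟨_, rfl⟩
  have hBC0 : 0 ≤ BC := by
    rw [hBC]
    exact add_nonneg (div_nonneg hBT0 hr.le) (Finset.sum_nonneg fun a _ => P.N_nonneg _)
  refine ⟨((d : ℝ) + 1) * (P.c * BC), fun B hB l hl => ⟨?_, fun a k => ?_⟩⟩
  · exact inc_compList M l hl
  · have h1 : P.N (rv (ab ((compList l a).take k))) ≤ BC := by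
      refine (compList_prefix P l BT hBT0 (fun τ hτ => ⟨hl τ hτ, fun a k => ?_⟩) a k).trans ?_
      · rw [hBT]
        exact JFin_BT P hnn τ (hl τ hτ) a k
      · rw [hBC]
        have := Finset.single_le_sum (f := fun a => P.N (rv (ev a)))
          (fun a _ => P.N_nonneg _) (Finset.mem_univ a)
        linarith
    refine (GFin_N_dis P _).trans ?_
    have hc := P.c_pos
    have h2 : P.c * P.N (rv (ab ((compList l a).take k))) ≤ P.c * BC :=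
      mul_le_mul_of_nonneg_left h1 hc.le
    have h3 : (P.c * P.N (rv (ab ((compList l a).take k)))) ^ 2 ≤ (P.c * BC) ^ 2 :=
      pow_le_pow_left₀ (mul_nonneg hc.le (P.N_nonneg _)) h2 2
    have hd0 : (0 : ℝ) ≤ d := Nat.cast_nonneg d
    have hcb : 0 ≤ P.c * BC := mul_nonneg hc.le hBC0
    calc (d : ℝ) * (P.c * P.N (rv (ab ((compList l a).take k)))) ^ 2
        ≤ d * (P.c * BC) ^ 2 := mul_le_mul_of_nonneg_left h3 hd0
      _ ≤ (((d : ℝ) + 1) * (P.c * BC)) ^ 2 := by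
          have e : (((d : ℝ) + 1) * (P.c * BC)) ^ 2 = ((d : ℝ) + 1) ^ 2 * (P.c * BC) ^ 2 := by ring
          have h5 : (d : ℝ) ≤ ((d : ℝ) + 1) ^ 2 := by nlinarith
          rw [e]
          exact mul_le_mul_of_nonneg_right h5 (sq_nonneg _)
      _ ≤ B ^ 2 := pow_le_pow_left₀ (mul_nonneg (by linarith) hcb) hB 2

/-- **Local density of absorbing substitutions.** -/
theorem main {m : ℕ} (M : Matrix (Fin (m+1)) (Fin (m+1)) ℤ)
    (hnn : ∀ i j, 0 ≤ M i j) (hM : PisotMat M) (lam : ℝ) (hlam : 1 < lam)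
    (u : Fin (m+1) → ℝ) (hu : ∀ i, ∑ j, (M i j : ℝ) * u j = lam * u i)
    (husum : ∑ i, u i = 1) :
    ∃ B₀ : ℝ, ∀ B ≥ B₀,
      (∀ l : List (Fin (m+1) → List (Fin (m+1))), (∀ τ ∈ l, inc τ = M) →
        compList l ∈ SubSet u (M ^ l.length) B) ∧
      ∃ L : ℕ, ∃ c : ℝ, 0 < c ∧ ∃ n₀ : ℕ, ∀ n ≥ n₀, ∀ σ ∈ SubSet u (M ^ n) B,
        ∀ Z : Finset (Fin (m+1) × ℕ), (Z.card : ℝ) ≤ c * lam ^ n →
        ∃ S ∈ SubSet u (M ^ n) B, (∀ p ∈ Z, (S p.1)[p.2]? = (σ p.1)[p.2]?) ∧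
          (∀ a, (S a).length = (σ a).length ∧ {k : ℕ | (S a)[k]? ≠ (σ a)[k]?}.encard ≤ L) ∧
          ∀ l₁ l₂ : List (Fin (m+1) → List (Fin (m+1))),
            (∀ ρ ∈ l₁ ++ l₂, ∃ i, 1 ≤ i ∧ ρ ∈ SubSet u (M ^ i) B) →
            (∃ N, 1 ≤ N ∧ inc (compList (l₁ ++ [S] ++ l₂)) = M ^ N) ∧
            SemiConjToral (compList (l₁ ++ [S] ++ l₂)) := by
  classical
  obtain ⟨P, rfl, rfl⟩ := exists_PD M hnn hM lam hlam u hu husum
  have hdet : IsUnit M.det := by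
    rcases hM.2.1 with h | h <;> rw [h] <;> simp
  have hr : 0 < 1 - P.rho := by linarith [P.rho_lt]
  obtain ⟨B1, hB1⟩ := local_hit P
  obtain ⟨B2, hB2⟩ := comp_mem hnn P
  refine ⟨max (max B1 B2) 0, fun B hB => ?_⟩
  have hBB1 : B ≥ B1 := le_trans (le_trans (le_max_left _ _) (le_max_left _ _)) hB
  have hBB2 : B ≥ B2 := le_trans (le_trans (le_max_right _ _) (le_max_left _ _)) hB
  have hB0 : 0 ≤ B := le_trans (le_max_right _ _) hB
  refine ⟨hB2 B hBB2, ?_⟩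
  obtain ⟨BF, hBF⟩ : ∃ BF : ℝ, BF = P.c * B := ⟨_, rfl⟩
  have hBF0 : 0 ≤ BF := by rw [hBF]; exact mul_nonneg P.c_pos.le hB0
  obtain ⟨BS, hBS⟩ : ∃ BS : ℝ, BS = BF / (1 - P.rho) + ∑ a, P.N (rv (ev a)) := ⟨_, rfl⟩
  have hBS0 : 0 ≤ BS := by
    rw [hBS]
    exact add_nonneg (div_nonneg hBF0 hr.le) (Finset.sum_nonneg fun a _ => P.N_nonneg _)
  obtain ⟨D, hD⟩ : ∃ D : ℝ, D = (16 * P.c ^ 2 + 4) * BS + 2 * BF / (1 - P.rho) := ⟨_, rfl⟩
  have hq1 : 0 ≤ 2 * BF / (1 - P.rho) := div_nonneg (by linarith) hr.le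
  have hq2 : 0 ≤ (16 * P.c ^ 2 + 4) * BS := mul_nonneg (by positivity) hBS0
  have hD0 : 0 ≤ D := by rw [hD]; linarith
  have hDBS : (16 * P.c ^ 2 + 4) * BS ≤ D := by rw [hD]; linarith
  have hDBF : 2 * BF ≤ (1 - P.rho) * D := by
    have h1 : 2 * BF / (1 - P.rho) ≤ D := by rw [hD]; linarith
    rw [div_le_iff₀ hr] at h1
    linarith
  obtain ⟨L, c, hc, n0, h⟩ := hB1 B hBB1 D
  have hrho : ∀ᶠ n : ℕ in Filter.atTop, P.rho ^ n ≤ 1 / 2 := by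
    have h := tendsto_pow_atTop_nhds_zero_of_lt_one P.rho_nonneg P.rho_lt
    exact (h.eventually (gt_mem_nhds (show (0:ℝ) < 1/2 by norm_num))).mono fun n hn => hn.le
  obtain ⟨n1, hn1⟩ := Filter.eventually_atTop.mp hrho
  refine ⟨L, c, hc, max (max n0 n1) 1, fun n hn σ hσ Z hZ => ?_⟩
  have hn00 : n0 ≤ n := le_trans (le_trans (le_max_left _ _) (le_max_left _ _)) hn
  have hn01 : n1 ≤ n := le_trans (le_trans (le_max_right _ _) (le_max_left _ _)) hn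
  have h1n : 1 ≤ n := le_trans (le_max_right _ _) hn
  obtain ⟨S, hS, hSZ, hSd, hShit⟩ := h n hn00 h1n σ hσ Z hZ
  refine ⟨S, hS, hSZ, fun a => ⟨GBad_upd_length hS hσ a, hSd a⟩, fun l₁ l₂ hl => ?_⟩
  have hfac0 : ∀ ρ : Fin (m+1) → List (Fin (m+1)), (∃ i, 1 ≤ i ∧ ρ ∈ SubSet P.u (M ^ i) B) →
      Fac P BF ρ := by
    rintro ρ ⟨i, hi, hρ⟩
    refine ⟨⟨i, hi, hρ.1⟩, fun a k => ?_⟩
    rw [hBF]
    exact GFin_dis_N P B hB0 _ (hρ.2 a k)
  have hl1 : ∀ ρ ∈ l₁, Fac P BF ρ := fun ρ h => hfac0 ρ (hl ρ (List.mem_append_left _ h))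
  have hl2 : ∀ ρ ∈ l₂, Fac P BF ρ := fun ρ h => hfac0 ρ (hl ρ (List.mem_append_right _ h))
  have hfacS : Fac P BF S := hfac0 S ⟨n, h1n, hS⟩
  have hall : ∀ ρ ∈ l₁ ++ [S] ++ l₂, Fac P BF ρ := by
    intro ρ h
    rw [List.mem_append, List.mem_append] at h
    rcases h with (h | h) | h
    · exact hl1 ρ h
    · rw [List.mem_singleton.1 h]
      exact hfacS
    · exact hl2 ρ h
  have hcS : compList [S] = S := by
    funext a
    simp [compList, comp, ext]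
  obtain ⟨N1, -, hN1⟩ := fac_inc P BF l₁ hl1
  obtain ⟨N2, -, hN2⟩ := fac_inc P BF l₂ hl2
  have hinc : inc (compList (l₁ ++ [S] ++ l₂)) = M ^ (N1 + n + N2) := by
    rw [compList_append, compList_append, inc_comp, inc_comp, hN1, hN2, hcS, hS.1, ← pow_add,
      ← pow_add]
  have hN : n ≤ N1 + n + N2 := by omega
  have hN1' : 1 ≤ N1 + n + N2 := le_trans h1n hN
  refine ⟨⟨_, hN1', hinc⟩, ?_⟩
  have hhit : P.Hit (compList (l₁ ++ [S] ++ l₂)) D := by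
    rw [compList_append, compList_append, comp_assoc]
    refine hit_comp_right P _ _ (fac_ne_nil P BF l₁ hl1) D ?_
    refine hit_comp_left P _ _ D D (fac_ovTo P l₂ BF D hD0 hl2 hDBF) ?_
    rw [hcS]
    exact hShit
  have hpre : ∀ a j, P.N (rv (ab ((compList (l₁ ++ [S] ++ l₂) a).take j))) ≤ BS := by
    intro a j
    refine (fac_prefix P _ BF hBF0 hall a j).trans ?_
    rw [hBS]
    have := Finset.single_le_sum (f := fun a => P.N (rv (ev a)))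
      (fun a _ => P.N_nonneg _) (Finset.mem_univ a)
    linarith
  refine JFin_semi (P.pow _ hN1') (by rw [Matrix.det_pow]; exact hdet.pow _) BS D hBS0
    hDBS (hn1 _ (le_trans hn01 hN)) 1 le_rfl _ (by rw [pow_one]; exact hinc) hpre ?_
  intro a b v hv hO
  exact hhit a b v hv hO

end Pool.Agent.Y480.PI
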